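import Pool.Agent.P.MP_4cdbd9_pr.Main

/-!
# The late-arrivals generating function has no product form for `ρ = 9/10`, `q = 1/2`

Convergence of the inner series and of the product is asked only in the weakest sense (partial
sums and partial products converge), so the statement covers every stronger reading.
-/

namespace Pool.Agent.Results.MP_4cdbd9_pr.NoProduct

open Pool.Agent.P.MP_4cdbd9_pr Filter Topology

theorem result : ∃ ρ q : ℝ, 0 < ρ ∧ ρ < 1 ∧ 0 < q ∧ q < 1 ∧ (∃ π, IsStationary ρ q π) ∧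
    ∀ π, IsStationary ρ q π → ¬ ∃ (β : ℕ → ℕ → ℂ) (b : ℕ → ℂ → ℂ),
      (∀ (k : ℕ) (z : ℂ), ‖z‖ ≤ 1 →
        Tendsto (fun N => ∑ j ∈ Finset.range N, β k (j + 1) * (z ^ (j + 1) - 1)) atTop
          (𝓝 (b k z))) ∧
      ∀ z y : ℂ, ‖z‖ ≤ 1 → ‖y‖ ≤ 1 →
        Tendsto (fun N => ∏ k ∈ Finset.range N,
            (1 + (ρ : ℂ) * (q : ℂ) ^ (k + 1) * (y - z) + (q : ℂ) ^ k * b k z)) atTop
          (𝓝 (genFun π z y)) :=
  ⟨9 / 10, 1 / 2, by norm_num, by norm_num, by norm_num, by norm_num, exists_stationary,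
    fun _ hπ ⟨_, _, hb, hP⟩ => no_product hπ hb hP⟩

end Pool.Agent.Results.MP_4cdbd9_pr.NoProduct
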